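import Pool.Agent.MP_f6b137_pr.H74.Base

/-! Sign changes on a fine grid count the zeros with high probability. -/

namespace Pool.Agent.MP_f6b137_pr.H74

open MeasureTheory ProbabilityTheory Filter Topology Polynomial Set
open scoped Real RealInnerProductSpace

noncomputable section

namespace MIS88

lemma ivt {g : ℝ → ℝ} (hg : Continuous g) {u v : ℝ} (huv : u ≤ v) (h : g u * g v < 0) :
    ∃ x ∈ Ioo u v, g x = 0 := by
  rcases mul_neg_iff.1 h with h | h
  · exact intermediate_value_Ioo' huv hg.continuousOn ⟨h.2, h.1⟩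
  · exact intermediate_value_Ioo huv hg.continuousOn h

open Classical in
/-- the number of roots above a level -/
def G (f : ℝ[X]) (y : ℝ) : ℝ := (f.roots.toFinset.filter (y ≤ ·)).card

open Classical in
lemma G_sub (f : ℝ[X]) {y y' : ℝ} (h : y ≤ y') :
    G f y - G f y' = (f.roots.toFinset.filter fun x => y ≤ x ∧ x < y').card := by
  rw [G, G, sub_eq_iff_eq_add, ← Nat.cast_add, Nat.cast_inj, ← Finset.filter_filter,
    ← Finset.card_filter_add_card_filter_not (s := Finset.filter (y ≤ ·) _) (· < y'),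
    Finset.filter_filter _ (fun x => ¬ x < y')]
  congr 2
  exact Finset.filter_congr fun x _ => ⟨fun e => not_lt.1 e.2, fun e => ⟨h.trans e, not_lt.2 e⟩⟩

lemma chg_le (f : ℝ[X]) {y y' : ℝ} (h : y ≤ y') :
    chg (f.eval y') (f.eval y) ≤ G f y - G f y' := by
  rw [G_sub f h, chg]
  split_ifs with e
  · obtain ⟨x, hx, h0⟩ := ivt f.continuous h (mul_comm (f.eval y') _ ▸ e)
    have hf : f ≠ 0 := by rintro rfl; simp at e
    exact Nat.one_le_cast.2 (Finset.card_pos.2 ⟨x, by simp [hf, h0, hx.1.le, hx.2]⟩)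
  · positivity

lemma bad (f : ℝ[X]) {y y' : ℝ} (h : y ≤ y') (h1 : f.eval y ≠ 0) (h2 : f.eval y' ≠ 0)
    (hne : chg (f.eval y') (f.eval y) ≠ G f y - G f y') :
    ∃ x ∈ Icc y y', ∃ z ∈ Icc y y', f.eval x = 0 ∧ f.derivative.eval z = 0 := by
  have hlt := (chg_le f h).lt_of_ne hne
  rw [G_sub f h, chg] at hlt
  split_ifs at hlt with e
  · obtain ⟨x, hx, z, hz, hxz⟩ := Finset.one_lt_card.1 (Nat.one_lt_cast.1 hlt)
    simp only [Finset.mem_filter, Multiset.mem_toFinset, mem_roots', IsRoot.def] at hx hz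
    wlog hl : x < z generalizing x z
    · exact this z x hxz.symm hz hx (lt_of_le_of_ne (not_lt.1 hl) hxz.symm)
    obtain ⟨w, hw, h0⟩ := exists_hasDerivAt_eq_zero hl f.continuous.continuousOn
      (hx.1.2.trans hz.1.2.symm) fun t _ => f.hasDerivAt t
    exact ⟨x, ⟨hx.2.1, hx.2.2.le⟩, w, ⟨hx.2.1.trans hw.1.le, hw.2.le.trans hz.2.2.le⟩, hx.1.2, h0⟩
  · obtain ⟨x, hx⟩ := Finset.card_pos.1 (Nat.cast_pos.1 hlt)
    simp only [Finset.mem_filter, Multiset.mem_toFinset, mem_roots', IsRoot.def] at hx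
    have hy : y < x := hx.2.1.lt_of_ne fun e => h1 (e ▸ hx.1.2)
    obtain ⟨u, hu, e1⟩ := exists_hasDerivAt_eq_slope (fun t => f.eval t) _ hy
      f.continuous.continuousOn fun t _ => f.hasDerivAt t
    obtain ⟨v, hv, e2⟩ := exists_hasDerivAt_eq_slope (fun t => f.eval t) _ hx.2.2
      f.continuous.continuousOn fun t _ => f.hasDerivAt t
    have hp : 0 < f.eval y' * f.eval y := (not_lt.1 e).lt_of_ne (mul_ne_zero h2 h1).symm
    obtain ⟨w, hw, h0⟩ := ivt f.derivative.continuous (hu.2.trans hv.1).le (by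
      rw [e1, e2, hx.1.2, div_mul_div_comm]
      exact div_neg_of_neg_of_pos (by linarith) (mul_pos (sub_pos.2 hy) (sub_pos.2 hx.2.2)))
    exact ⟨x, ⟨hx.2.1, hx.2.2.le⟩, w, ⟨(hu.1.trans hw.1).le, (hw.2.trans hv.2).le⟩, hx.1.2, h0⟩

lemma anti {N s t : ℝ} (hN : 0 < N) (hs : 0 ≤ s) (hst : s ≤ t) (ht : t ≤ N) :
    Real.cos (π * t / N) ≤ Real.cos (π * s / N) := by
  have := Real.pi_pos
  refine Real.cos_le_cos_of_nonneg_of_le_pi (by positivity) ?_ (by gcongr)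
  rw [div_le_iff₀ hN]
  gcongr

lemma est {F F' : ℝ → ℝ} (hF : ∀ t, HasDerivAt F (F' t) t) {a b x z Y : ℝ} (hY : 0 ≤ Y)
    (hL : ∀ s ∈ Icc a b, ∀ t ∈ Icc a b, |F' s - F' t| ≤ Y * |s - t|) (hx : x ∈ Icc a b)
    (hz : z ∈ Icc a b) (h0 : F x = 0) (h1 : F' z = 0) {c : ℝ} (hc : c ∈ Icc a b) :
    |F c| ≤ Y * (b - a) ^ 2 ∧ |F b - F a| ≤ Y * (b - a) ^ 2 := by
  have hab : ∀ s ∈ Icc a b, ∀ t ∈ Icc a b, |s - t| ≤ b - a := fun s hs t ht =>
    abs_le.2 ⟨by linarith [hs.1, ht.2], by linarith [hs.2, ht.1]⟩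
  have key : ∀ s ∈ Icc a b, ∀ t ∈ Icc a b, |F t - F s| ≤ Y * (b - a) ^ 2 := fun s hs t ht => by
    have := (convex_Icc a b).norm_image_sub_le_of_norm_hasDerivWithin_le (C := Y * (b - a))
      (fun u _ => (hF u).hasDerivWithinAt) (fun u hu => by
        have := hL u hu z hz
        rw [h1, sub_zero] at this
        exact this.trans (mul_le_mul_of_nonneg_left (hab u hu z hz) hY)) hs ht
    refine this.trans ?_
    rw [sq, ← mul_assoc]
    exact mul_le_mul_of_nonneg_left (hab t ht s hs) (mul_nonneg hY (by linarith [hs.1, hs.2]))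
  exact ⟨by simpa [h0] using key x hx c hc,
    key a ⟨le_rfl, hc.1.trans hc.2⟩ b ⟨hc.1.trans hc.2, le_rfl⟩⟩

variable (p : ℕ → ℝ[X]) (n N : ℕ) {D : ℕ} (φ : ℕ → ES D)

lemma lip : ∃ (K' : ℝ → ES D) (L : ℝ), 0 ≤ L ∧ (∀ t, HasDerivAt (Kt p n N φ) (K' t) t) ∧
    ∀ s ∈ Icc (0 : ℝ) N, ∀ t ∈ Icc (0 : ℝ) N, ‖K' s - K' t‖ ≤ L * |s - t| := by
  have h : ContDiff ℝ 2 (Kt p n N φ) := ContDiff.sum fun k _ =>
    (((p k).contDiff_aeval 2).comp (by fun_prop : ContDiff ℝ 2 fun t : ℝ =>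
      Real.cos (π * t / N))).smul contDiff_const
  have h1 : ContDiff ℝ 1 (deriv (Kt p n N φ)) := h.deriv'
  obtain ⟨L, hL⟩ := (h1.locallyLipschitz.locallyLipschitzOn
    (s := Icc (0 : ℝ) N)).exists_lipschitzOnWith_of_compact isCompact_Icc
  exact ⟨_, L, L.2, fun t => (h.differentiable two_ne_zero t).hasDerivAt,
    fun s hs t ht => hL.norm_sub_le hs ht⟩

variable {N}

lemma grid {j k l : ℕ} (hj : j ∈ Finset.Ico 1 (N - 1)) (hk : k ∈ Finset.range (2 ^ l)) :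
    (j : ℝ) ≤ j + k / 2 ^ l ∧ (j : ℝ) + k / 2 ^ l ≤ j + (k + 1) / 2 ^ l ∧
      (j : ℝ) + (k + 1) / 2 ^ l ≤ j + 1 ∧ (j : ℝ) + 1 ≤ N := by
  refine ⟨le_add_of_nonneg_right (by positivity), by gcongr; linarith, ?_, ?_⟩
  · rw [add_le_add_iff_left, div_le_one (by positivity)]
    exact_mod_cast Finset.mem_range.1 hk
  · have := Finset.mem_Ico.1 hj
    exact_mod_cast (by omega : j + 1 ≤ N)

lemma tel (hN : 2 ≤ N) (g : ℝ → ℝ) (l : ℕ) :
    ∑ j ∈ Finset.Ico 1 (N - 1), ∑ k ∈ Finset.range (2 ^ l),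
      (g (j + (k + 1) / 2 ^ l) - g (j + k / 2 ^ l)) = g (N - 1) - g 1 := by
  have h := Finset.sum_Ico_sub (fun j : ℕ => g j) (by omega : 1 ≤ N - 1)
  rw [Nat.cast_sub (by omega), Nat.cast_one] at h
  rw [← h]
  refine Finset.sum_congr rfl fun j _ => ?_
  have h := Finset.sum_range_sub (fun k : ℕ => g (j + k / 2 ^ l)) (2 ^ l)
  push_cast at h ⊢
  rw [h, div_self (by positivity), zero_div, add_zero]

end MIS88

open MIS88 in
theorem rowMIS : OfMIS := by
  classical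
  intro hSB p n N D φ κ A hp hκ hN hW
  have hN0 : (0 : ℝ) < N := by positivity
  have hle : ∀ (l : ℕ) (W : ES D), ∀ j ∈ Finset.Ico 1 (N - 1), ∀ k ∈ Finset.range (2 ^ l),
      sc (Kt p n N φ (j + k / 2 ^ l)) (Kt p n N φ (j + (k + 1) / 2 ^ l)) W ≤
        G (Pw p n φ W) (Real.cos (π * (j + (k + 1) / 2 ^ l) / N)) -
          G (Pw p n φ W) (Real.cos (π * (j + k / 2 ^ l) / N)) := fun l W j hj k hk => by
    obtain ⟨g1, g2, g3, g4⟩ := grid hj hk
    rw [sc, inner_Kt, inner_Kt]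
    exact chg_le _ (anti hN0 (by positivity) g2 (g3.trans g4))
  refine ⟨fun l W => ?_, fun ε hε => ?_⟩
  · refine (Finset.sum_le_sum fun j hj => Finset.sum_le_sum (hle l W j hj)).trans ?_
    rw [tel hN fun t => G (Pw p n φ W) (Real.cos (π * t / N))]
    refine (sub_le_self _ (Nat.cast_nonneg _)).trans (Nat.cast_le.2 ?_)
    exact (Finset.card_filter_le _ _).trans (card_roots_le (natDegree_Pw hp n φ W))
  obtain ⟨K', L, hL0, hK', hL⟩ := lip p n N φ
  choose! lam hlam hlow using hW.low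
  obtain ⟨T, hT, hTε⟩ : ∃ T : ℝ, 0 < T ∧ D / T ^ 2 ≤ ε / 2 := by
    refine ⟨√(2 * D / ε + 1), by positivity, ?_⟩
    rw [Real.sq_sqrt (by positivity), div_le_iff₀ (by positivity)]
    have : ε / 2 * (2 * D / ε + 1) = D + ε / 2 := by field_simp
    linarith
  obtain ⟨C, hC⟩ : ∃ C, C = ∑ j ∈ Finset.Ico 1 (N - 1), (lam j * (L * T) / κ) ^ 2 := ⟨_, rfl⟩
  have hlim : Tendsto (fun l : ℕ => C * (1 / 4) ^ l) atTop (𝓝 0) := by
    simpa using (tendsto_pow_atTop_nhds_zero_of_lt_one (r := (1 / 4 : ℝ)) (by norm_num)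
      (by norm_num)).const_mul C
  filter_upwards [hlim.eventually (ge_mem_nhds (half_pos hε))] with l hl
  obtain ⟨h, hh⟩ : ∃ h : ℝ, h = 1 / 2 ^ l / 2 := ⟨_, rfl⟩
  have hh0 : 0 < h := by rw [hh]; positivity
  have e1 : ∀ j k : ℕ, (j : ℝ) + k / 2 ^ l = j + k / 2 ^ l + h - h := fun j k => by ring
  have e2 : ∀ j k : ℕ, (j : ℝ) + (k + 1) / 2 ^ l = j + k / 2 ^ l + h + h := fun j k => by
    rw [hh]; ring
  let B : ℕ → ℕ → Set (ES D) := fun j k =>
    ({W | ⟪Kt p n N φ (j + k / 2 ^ l), W⟫ = (0 : ℝ)} ∪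
      {W | ⟪Kt p n N φ (j + (k + 1) / 2 ^ l), W⟫ = (0 : ℝ)}) ∪
    {W | |⟪lam j • Kt p n N φ (j + k / 2 ^ l + h), W⟫| ≤ lam j * (L * T * (2 * h) ^ 2) ∧
      |⟪dd1 (Kt p n N φ) (lam j) (j + k / 2 ^ l + h) h, W⟫| ≤ lam j * (L * T * (2 * h))}
  have hz : ∀ t, (gam D).real {W | ⟪Kt p n N φ t, W⟫ = (0 : ℝ)} = 0 := fun t => by
    rw [measureReal_def, hSB.null D _ (hW.ne t), ENNReal.toReal_zero]
  have hB : ∀ j ∈ Finset.Ico 1 (N - 1), ∀ k ∈ Finset.range (2 ^ l),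
      (gam D).real (B j k) ≤ (lam j * (L * T) / κ) ^ 2 * (1 / 4) ^ l / 2 ^ l := by
    intro j hj k hk
    obtain ⟨g1, g2, g3, g4⟩ := grid hj hk
    have hj' := Finset.mem_Ico.1 hj
    have hl0 := hlam j hj'.1 (by omega)
    have a1 := (hlow j hj'.1 (by omega) _ h hh0 (e1 j k ▸ g1) (e2 j k ▸ g3)).1
    have a2 := hSB.two D _ _ κ (lam j * (L * T * (2 * h) ^ 2)) (lam j * (L * T * (2 * h))) hκ
      (by positivity) (by positivity) fun α β => by simpa using a1 α β 0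
    refine (measureReal_union_le _ _).trans ((add_le_add (measureReal_union_le _ _) a2).trans_eq ?_)
    rw [hz, hz, hh, one_div_pow, show (4 : ℝ) ^ l = (2 ^ l) ^ 2 by rw [← pow_mul, pow_mul']; norm_num]
    field_simp
    ring
  have hsub : {W | Sl (Kt p n N φ) N l W ≠
      (((Pw p n φ W).roots.toFinset.filter fun x => |x| < Real.cos (π / N)).card : ℝ)} ⊆
      ({W | ⟪Kt p n N φ (N - 1), W⟫ = (0 : ℝ)} ∪ {W | T ≤ ‖W‖}) ∪
        ⋃ j ∈ Finset.Ico 1 (N - 1), ⋃ k ∈ Finset.range (2 ^ l), B j k := by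
    intro W hne
    by_contra hc
    simp only [mem_union, mem_iUnion, not_or, not_exists, mem_ofPred_eq, not_le, B] at hc
    obtain ⟨⟨c1, c2⟩, c3⟩ := hc
    refine hne ?_
    have e3 : Real.cos (π * (N - 1) / N) = -Real.cos (π / N) := by
      rw [← Real.cos_pi_sub]; congr 1; field_simp
    have hc0 : 0 ≤ Real.cos (π / N) := by
      have := anti hN0 zero_le_one (show (1 : ℝ) ≤ N - 1 by
        have : (2 : ℝ) ≤ N := by exact_mod_cast hN
        linarith) (by linarith)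
      rw [e3, mul_one] at this
      linarith
    have e4 := tel hN (fun t => G (Pw p n φ W) (Real.cos (π * t / N))) l
    rw [e3, mul_one, G_sub _ (by linarith)] at e4
    rw [inner_Kt, e3] at c1
    rw [Finset.filter_congr (q := fun x => -Real.cos (π / N) ≤ x ∧ x < Real.cos (π / N))
      fun x hx => abs_lt.trans (and_congr_left' ⟨le_of_lt, fun e => e.lt_of_ne fun e' =>
        c1 (e' ▸ (mem_roots'.1 (Multiset.mem_toFinset.1 hx)).2)⟩), ← e4]
    refine Finset.sum_congr rfl fun j hj => Finset.sum_congr rfl fun k hk => ?_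
    obtain ⟨g1, g2, g3, g4⟩ := grid hj hk
    obtain ⟨⟨b1, b2⟩, b3⟩ := c3 j hj k hk
    by_contra hm
    rw [sc, inner_Kt, inner_Kt] at hm
    rw [inner_Kt] at b1 b2
    have hj' := Finset.mem_Ico.1 hj
    have hl0 := hlam j hj'.1 (by omega)
    obtain ⟨x₀, hx₀, z₀, hz₀, h0, h1⟩ := bad _ (anti hN0 (by positivity) g2 (g3.trans g4)) b2 b1 hm
    have hco : Continuous fun t : ℝ => Real.cos (π * t / N) := by fun_prop
    obtain ⟨x, hx, rfl⟩ := intermediate_value_Icc' g2 hco.continuousOn hx₀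
    obtain ⟨z, hz, rfl⟩ := intermediate_value_Icc' g2 hco.continuousOn hz₀
    have hF : ∀ t, HasDerivAt (fun t => ⟪Kt p n N φ t, W⟫) ⟪K' t, W⟫ t := fun t => by
      simpa using (hK' t).inner ℝ (hasDerivAt_const t W)
    have h2 : ⟪K' z, W⟫ = (0 : ℝ) := by
      have := ((Pw p n φ W).hasDerivAt _).comp z
        (((hasDerivAt_id z).const_mul π).div_const N).cos
      rw [id, h1, zero_mul] at this
      exact (hF z).unique (by simp only [inner_Kt]; exact this)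
    have hI : ∀ s ∈ Icc ((j : ℝ) + k / 2 ^ l) (j + (k + 1) / 2 ^ l), s ∈ Icc (0 : ℝ) N :=
      fun s hs => ⟨le_trans (by positivity) hs.1, hs.2.trans (g3.trans g4)⟩
    obtain ⟨r1, r2⟩ := est hF (Y := L * T) (by positivity) (fun s hs t ht => by
      rw [← inner_sub_left, mul_right_comm]
      exact (abs_real_inner_le_norm _ _).trans
        (mul_le_mul (hL s (hI s hs) t (hI t ht)) c2.le (norm_nonneg _) (by positivity)))
      hx hz (by rw [inner_Kt]; exact h0) h2 (c := j + k / 2 ^ l + h)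
      ⟨by linarith, by rw [e2]; linarith⟩
    have e5 : (j : ℝ) + (k + 1) / 2 ^ l - (j + k / 2 ^ l) = 2 * h := by rw [e2]; ring
    rw [e5] at r1 r2
    refine b3 ⟨?_, ?_⟩
    · rw [real_inner_smul_left, abs_mul, abs_of_pos hl0]
      gcongr
    · rw [dd1, real_inner_smul_left, inner_sub_left, ← e1, ← e2, abs_mul,
        abs_of_pos (by positivity)]
      refine (mul_le_mul_of_nonneg_left r2 (by positivity)).trans_eq ?_
      field_simp
  refine (measureReal_mono hsub).trans ((measureReal_union_le _ _).trans ?_)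
  have a1 := (measureReal_union_le (μ := gam D) {W | ⟪Kt p n N φ (N - 1), W⟫ = (0 : ℝ)}
    {W | T ≤ ‖W‖}).trans (add_le_add (hz _).le ((hSB.norm D T hT).trans hTε))
  have a2 := (measureReal_biUnion_finset_le (μ := gam D) (Finset.Ico 1 (N - 1))
    fun j => ⋃ k ∈ Finset.range (2 ^ l), B j k).trans (Finset.sum_le_sum fun j hj =>
      (measureReal_biUnion_finset_le _ _).trans (Finset.sum_le_sum (hB j hj)))
  simp only [Finset.sum_const, Finset.card_range, nsmul_eq_mul, Nat.cast_pow, Nat.cast_ofNat,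
    mul_div_cancel₀ _ (pow_ne_zero l (two_ne_zero (α := ℝ))), ← Finset.sum_mul, ← hC] at a2
  linarith

end

end Pool.Agent.MP_f6b137_pr.H74
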